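import Pool.Agent.MP_88bd62_nt.U.Exact

open Filter Topology

/-- With `S x` the sum of `(-2) ^ Ω n` over `1 ≤ n ≤ x`: `S x / x` is asymptotic to an explicit
function `Φ` with `Φ (2 x) = -Φ x`, and the limit superior of `|S x| / x` is the supremum of `|Φ|`
on `[1, 2)`. -/
theorem Pool.Agent.Results.MP_88bd62_nt.ExactForm.result : ∃ Φ : ℝ → ℝ,
    (∀ x : ℝ, 0 < x → Tendsto (fun N : ℕ => 2 / (3 * x) * ∑ n ∈ (Finset.Icc 1 N).filter Odd,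
      (-2 : ℝ) ^ ((ArithmeticFunction.cardFactors n : ℤ) + ⌊Real.logb 2 (x / n)⌋)) atTop
      (𝓝 (Φ x))) ∧
    (∀ x : ℝ, 0 < x → Φ (2 * x) = -Φ x) ∧
    (∀ (k : ℤ) (s : ℂ), Odd k → s = 1 + (Real.pi * k / Real.log 2 : ℝ) * Complex.I →
      ∫ v in (-1 : ℝ)..1, (Φ (2 ^ v) : ℂ) * Complex.exp (-(Real.pi * k * v : ℝ) * Complex.I) =
        2 * (∏' p : Nat.Primes, if (p : ℕ) = 2 then 1 else
          ((1 + 2 * (p : ℂ) ^ (-s)) * (1 - (p : ℂ) ^ (-s)) ^ 2)⁻¹) /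
          (((1 - (2 : ℂ) ^ (-s)) * riemannZeta s) ^ 2 * (s * (Real.log 2 : ℝ)))) ∧
    Tendsto (fun x : ℝ =>
      (∑ n ∈ Finset.Icc 1 ⌊x⌋₊, (-2 : ℝ) ^ ArithmeticFunction.cardFactors n) / x - Φ x) atTop
      (𝓝 0) ∧
    limsup (fun x : ℝ =>
      ((|∑ n ∈ Finset.Icc 1 ⌊x⌋₊, (-2 : ℝ) ^ ArithmeticFunction.cardFactors n| / x : ℝ) : EReal))
      atTop = ⨆ x ∈ Set.Ico (1 : ℝ) 2, ((|Φ x| : ℝ) : EReal) :=
  Pool.Agent.MP_88bd62_nt.U.Exact.main
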