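import Pool.Agent.MP_88bd62_nt.Main

/-- The limsup of `|S x| / x`, where `S x` is the sum of `(-2) ^ Ω n` over `1 ≤ n ≤ x`, is at
least `0.9732`. -/
theorem Pool.Agent.Results.MP_88bd62_nt.LowerBound.result :
    ((9732 / 10000 : ℝ) : EReal) ≤ Filter.limsup (fun x : ℝ =>
      ((|∑ n ∈ Finset.Icc 1 ⌊x⌋₊, (-2 : ℝ) ^ ArithmeticFunction.cardFactors n| / x : ℝ) : EReal))
      Filter.atTop :=
  Pool.Agent.MP_88bd62_nt.limsup_ge
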